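import Mathlib
import Pool.Agent.R330.AF.Main
import Pool.Agent.NH18.SP.S1

/-!
# MP_f6c7cf_nt: strong probable primes in place of primes

At least `c X / log X` odd numbers `n ≤ X` are of the form `x² + y² + z² + 4 w²` for natural numbers `x, y, z, w` such
that `N = 2^x + 2^y + 2^z + 1` is a prime or a strong pseudoprime to the base `2`, is coprime to all the numbers
`2 ^ K - 1`, `1 ≤ K ≤ c √X`, and has only prime factors larger than `c √X log X`.

As in the starting result SquareRootBarrier, `(x, y, z) = (P, (P - 1) / 2, (P - 1) / 2)` for a prime `P ≡ 3 mod 8`.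
The odd part of `N - 1` is then `2^((P-1)/2) + 1`, a multiple of `P` by Euler's criterion, and `N` divides
`2^(2P) + 1`; the order of `2` modulo every prime factor of `N` is `4 P`.
-/

namespace Pool.Agent.Results.MP_f6c7cf_nt.StrongProbablePrimes

open Finset Filter Pool.Agent.R330.AF

/-- `N` is odd, and a prime or a strong pseudoprime to the base `b` (`N` passes the Miller-Rabin test to the base `b`):
with `N - 1 = 2 ^ e * d`, `d` odd, either `b ^ d` is `1` or one of the `b ^ (2 ^ j * d)`, `j < e`, is `-1` modulo `N` -/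
def StrongProbablePrime (b N : ℕ) : Prop :=
  ∃ e d : ℕ, 0 < e ∧ Odd d ∧ N = 2 ^ e * d + 1 ∧ (N ∣ b ^ d - 1 ∨ ∃ j < e, N ∣ b ^ (2 ^ j * d) + 1)

/-- `n = x² + y² + z² + 4 w²`, and `N = 2^x + 2^y + 2^z + 1` is a strong probable prime to the base `2`, coprime
to `2 ^ K - 1` for all `1 ≤ K ≤ c √X`, with prime factors larger than `c √X log X` only -/
def Good (c : ℝ) (X n x y z w : ℕ) : Prop :=
  n = x ^ 2 + y ^ 2 + z ^ 2 + 4 * w ^ 2 ∧
  StrongProbablePrime 2 (2 ^ x + 2 ^ y + 2 ^ z + 1) ∧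
  (∀ K : ℕ, 0 < K → (K : ℝ) ≤ c * √(X : ℝ) → Nat.Coprime (2 ^ x + 2 ^ y + 2 ^ z + 1) (2 ^ K - 1)) ∧
  ∀ q : ℕ, q.Prime → q ∣ 2 ^ x + 2 ^ y + 2 ^ z + 1 → c * √(X : ℝ) * Real.log X < q

/-- There are `c > 0` and `X₀` such that for all `X ≥ X₀` at least `c X / log X` odd numbers `n ≤ X` are of the form
`x² + y² + z² + 4 w²` with `N = 2^x + 2^y + 2^z + 1` a strong probable prime to the base `2` (a prime or a strong
pseudoprime), coprime to `2 ^ K - 1` for all `1 ≤ K ≤ c √X`, all prime factors of which are larger than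
`c √X log X`. -/
theorem result : ∃ c : ℝ, 0 < c ∧ ∃ X₀ : ℕ, ∀ X : ℕ, X₀ ≤ X →
    c * X / Real.log X ≤
      (Set.ncard {n : ℕ | n ≤ X ∧ Odd n ∧ ∃ x y z w : ℕ, Good c X n x y z w} : ℝ) := by
  obtain ⟨c1, η, δ, hc1, hη, hδ, hI⟩ := image_lower
  obtain ⟨Y0, hY0⟩ := eventually_atTop.1 hI
  refine ⟨min (c1 / 16) (min (δ * η / 3) η), by positivity, max 10000 (16 * (Y0 + 2) ^ 2), fun X hX => ?_⟩
  set c := min (c1 / 16) (min (δ * η / 3) η) with hcdef
  have hcle1 : c ≤ c1 / 16 := min_le_left _ _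
  have hcle2 : c ≤ δ * η / 3 := (min_le_right _ _).trans (min_le_left _ _)
  have hcle3 : c ≤ η := (min_le_right _ _).trans (min_le_right _ _)
  have hX1 : 10000 ≤ X := (le_max_left _ _).trans hX
  have hX2 : 16 * (Y0 + 2) ^ 2 ≤ X := (le_max_right _ _).trans hX
  have hXR : (10000 : ℝ) ≤ X := by exact_mod_cast hX1
  have hX0 : (0 : ℝ) < X := by linarith
  set y := Nat.sqrt (X / 6) with hy
  have hysq : y ^ 2 ≤ X / 6 := Nat.sqrt_le' _
  have hysq2 : X / 6 < (y + 1) ^ 2 := Nat.lt_succ_sqrt' _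
  have hyX : 6 * y ^ 2 ≤ X := by omega
  have hX6 : X < 6 * (y + 1) ^ 2 := by omega
  have hsX : √(X : ℝ) * √(X : ℝ) = X := Real.mul_self_sqrt hX0.le
  have hsX0 : 0 < √(X : ℝ) := Real.sqrt_pos.2 hX0
  have hsX100 : (100 : ℝ) ≤ √(X : ℝ) := by
    apply Real.le_sqrt_of_sq_le; linarith
  have hyR : √(X : ℝ) / 4 ≤ y := by
    have h1 : (X : ℝ) < 6 * ((y : ℝ) + 1) ^ 2 := by exact_mod_cast hX6
    by_contra hcon
    push Not at hcon
    have h2 : (y : ℝ) + 1 < √(X : ℝ) / 4 + 1 := by linarith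
    have h3 : √(X : ℝ) / 4 + 1 ≤ (26 / 100) * √(X : ℝ) := by linarith
    have h4 : ((y : ℝ) + 1) ^ 2 ≤ ((26 / 100) * √(X : ℝ)) ^ 2 :=
      pow_le_pow_left₀ (by positivity) (by linarith) 2
    have h5 : ((26 / 100) * √(X : ℝ)) ^ 2 = (676 / 10000) * X := by
      rw [mul_pow, Real.sq_sqrt hX0.le]; norm_num
    rw [h5] at h4
    linarith
  have hyY0 : Y0 ≤ y := by
    have h1 : ((Y0 : ℝ) + 2) ≤ √(X : ℝ) / 4 := by
      rw [le_div_iff₀ (by norm_num)]
      apply Real.le_sqrt_of_sq_le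
      have : (16 * ((Y0 : ℝ) + 2) ^ 2) ≤ X := by exact_mod_cast hX2
      calc (((Y0 : ℝ) + 2) * 4) ^ 2 = 16 * ((Y0 : ℝ) + 2) ^ 2 := by ring
        _ ≤ (X : ℝ) := this
    have h2 : (Y0 : ℝ) ≤ y := by linarith
    exact_mod_cast h2
  have hy25 : (25 : ℝ) ≤ y := by linarith
  have hy0 : (0 : ℝ) < y := by linarith
  have hlogy : 0 < Real.log y := Real.log_pos (by linarith)
  have hlogX : 0 < Real.log X := Real.log_pos (by linarith)
  have hyleX : (y : ℝ) ≤ X := by
    have h1 : y ≤ y ^ 2 := Nat.le_self_pow (by norm_num) y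
    have h2 : y ≤ X := by omega
    exact_mod_cast h2
  have hlogle : Real.log y ≤ Real.log X := Real.log_le_log hy0 hyleX
  have hlogge : Real.log X / 3 ≤ Real.log y := by
    have e1 : Real.log (√(X : ℝ) / 4) ≤ Real.log y := Real.log_le_log (by positivity) hyR
    have e2 : Real.log (√(X : ℝ) / 4) = Real.log X / 2 - Real.log 4 := by
      rw [Real.log_div (by positivity) (by norm_num), Real.log_sqrt hX0.le]
    have e3 : 6 * Real.log 4 ≤ Real.log X := by
      have : 6 * Real.log 4 = Real.log (4 ^ 6) := by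
        rw [Real.log_pow]; norm_num
      rw [this]
      apply Real.log_le_log (by norm_num)
      linarith
    linarith
  have hmain := hY0 y hyY0
  set H := ⌊δ * Real.log y⌋₊ with hH
  set z := ⌊η * (y : ℝ)⌋₊ with hz
  -- the set contains the image
  have hfin : {n : ℕ | n ≤ X ∧ Odd n ∧ ∃ x y z w : ℕ, Good c X n x y z w}.Finite :=
    (Set.finite_Iic X).subset (fun n hn => hn.1)
  have hsub : (((LL H z y ×ˢ Icc 1 y).image (fun p => V p.1 p.2) : Finset ℕ) : Set ℕ) ⊆
      {n : ℕ | n ≤ X ∧ Odd n ∧ ∃ x y z w : ℕ, Good c X n x y z w} := by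
    intro n hn
    rw [mem_coe, mem_image] at hn
    obtain ⟨⟨l, w⟩, hlw, rfl⟩ := hn
    rw [mem_product, mem_Icc] at hlw
    simp only at hlw ⊢
    obtain ⟨hl, hw⟩ := hlw
    rw [LL, mem_filter, mem_Ioc] at hl
    obtain ⟨⟨hlz, hly⟩, hlp, hlm, hlh⟩ := hl
    obtain ⟨j, rfl⟩ : ∃ j, l = 8 * j + 3 := ⟨l / 8, by omega⟩
    have hj2 : (8 * j + 3 - 1) / 2 = 4 * j + 1 := by omega
    have e0 : 2 ^ (8 * j + 3) + 2 ^ (4 * j + 1) + 2 ^ (4 * j + 1) + 1 =
        2 ^ (8 * j + 3) + 2 ^ (4 * j + 2) + 1 := by ring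
    have hlow : η * y < ((8 * j + 3 : ℕ) : ℝ) := by
      have h3 : η * y < z + 1 := Nat.lt_floor_add_one _
      have h4 : ((z + 1 : ℕ) : ℝ) ≤ ((8 * j + 3 : ℕ) : ℝ) := by exact_mod_cast hlz
      push_cast at h4 ⊢
      linarith
    refine ⟨(V_le hly hw.2).trans hyX, ?_, 8 * j + 3, 4 * j + 1, 4 * j + 1, w, ?_, ?_, ?_, ?_⟩
    · unfold V
      rw [hj2]
      exact ⟨32 * j ^ 2 + 24 * j + 4 + (4 * j + 1) ^ 2 + 2 * w ^ 2, by ring⟩
    · unfold V
      rw [hj2]
    · rw [e0]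
      exact Pool.Agent.NH18.SP.strong hlp
    · intro K hK hK2
      rw [e0]
      apply Pool.Agent.NH18.SP.coprime_of hlp hK
      have h5 : c * √(X : ℝ) ≤ 4 * (η * y) := by
        calc c * √(X : ℝ) ≤ η * √(X : ℝ) := mul_le_mul_of_nonneg_right hcle3 hsX0.le
          _ = 4 * (η * (√(X : ℝ) / 4)) := by ring
          _ ≤ 4 * (η * y) := by
              apply mul_le_mul_of_nonneg_left _ (by norm_num)
              exact mul_le_mul_of_nonneg_left hyR hη.le
      have h6 : (K : ℝ) < 4 * ((8 * j + 3 : ℕ) : ℝ) := by linarith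
      exact_mod_cast h6
    · intro q hq hd
      obtain ⟨h, hh1, hqh⟩ := prime_factor hlp hq hd
      have hHh : H < h := by
        by_contra hcon
        push Not at hcon
        exact hlh h (mem_Icc.2 ⟨hh1, hcon⟩) (hqh ▸ hq)
      have h1 : δ * Real.log y < h := by
        have h2 : δ * Real.log y < H + 1 := Nat.lt_floor_add_one _
        have h3 : ((H + 1 : ℕ) : ℝ) ≤ h := by exact_mod_cast hHh
        push_cast at h3
        linarith
      have h2 : η * y < ((8 * j + 3 : ℕ) : ℝ) := by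
        have h3 : η * y < z + 1 := Nat.lt_floor_add_one _
        have h4 : ((z + 1 : ℕ) : ℝ) ≤ ((8 * j + 3 : ℕ) : ℝ) := by exact_mod_cast hlz
        push_cast at h4 ⊢
        linarith
      have h3 : (q : ℝ) = 4 * h * ((8 * j + 3 : ℕ) : ℝ) + 1 := by
        rw [hqh]; push_cast; ring
      have h4 : (δ * Real.log y) * (η * y) ≤ h * ((8 * j + 3 : ℕ) : ℝ) :=
        mul_le_mul h1.le h2.le (by positivity) (by positivity)
      have h5 : δ * (Real.log X / 3) * (η * (√(X : ℝ) / 4)) ≤ (δ * Real.log y) * (η * y) := by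
        apply mul_le_mul
        · exact mul_le_mul_of_nonneg_left hlogge hδ.le
        · exact mul_le_mul_of_nonneg_left hyR hη.le
        · positivity
        · positivity
      calc c * √(X : ℝ) * Real.log X ≤ δ * η / 3 * √(X : ℝ) * Real.log X := by
            apply mul_le_mul_of_nonneg_right _ hlogX.le
            exact mul_le_mul_of_nonneg_right hcle2 hsX0.le
        _ = 4 * (δ * (Real.log X / 3) * (η * (√(X : ℝ) / 4))) := by ring
        _ ≤ 4 * (h * ((8 * j + 3 : ℕ) : ℝ)) := by linarith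
        _ < q := by rw [h3]; linarith
  have hcard := Set.ncard_le_ncard hsub hfin
  rw [Set.ncard_coe_finset] at hcard
  have hcardR : (((LL H z y ×ˢ Icc 1 y).image (fun p => V p.1 p.2)).card : ℝ) ≤
    (Set.ncard {n : ℕ | n ≤ X ∧ Odd n ∧ ∃ x y z w : ℕ, Good c X n x y z w} : ℝ) := by
    exact_mod_cast hcard
  refine le_trans ?_ (hmain.trans hcardR)
  have h1 : (X : ℝ) / 16 ≤ (y : ℝ) ^ 2 := by
    calc (X : ℝ) / 16 = (√(X : ℝ) / 4) ^ 2 := by rw [div_pow, Real.sq_sqrt hX0.le]; norm_num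
      _ ≤ (y : ℝ) ^ 2 := pow_le_pow_left₀ (by positivity) hyR 2
  calc c * X / Real.log X ≤ c1 / 16 * X / Real.log X := by
        apply div_le_div_of_nonneg_right _ hlogX.le
        exact mul_le_mul_of_nonneg_right hcle1 hX0.le
    _ = c1 * (X / 16 / Real.log X) := by ring
    _ ≤ c1 * ((y : ℝ) ^ 2 / Real.log y) := by
        apply mul_le_mul_of_nonneg_left _ hc1.le
        exact div_le_div₀ (by positivity) h1 hlogy hlogle


end Pool.Agent.Results.MP_f6c7cf_nt.StrongProbablePrimes
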